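import Pool.Agent.H67.HM.Stm2

open Polynomial MeasureTheory Filter Topology

namespace HM

namespace NRM81

variable {G : Type} [AddCommGroup G]

/-- sum of powers, over any finite set containing the support -/
theorem sum_ext (r : ℝ) (hr : 1 ≤ r) (x : AddMonoidAlgebra ℂ G) (T : Finset G)
    (hT : x.coeff.support ⊆ T) :
    ∑ k ∈ x.coeff.support, ‖x.coeff k‖ ^ r = ∑ k ∈ T, ‖x.coeff k‖ ^ r := by
  apply Finset.sum_subset hT
  intro k _ hk
  rw [Finsupp.notMem_support_iff.mp hk, norm_zero, Real.zero_rpow (by linarith)]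

theorem S_nonneg (r : ℝ) (x : AddMonoidAlgebra ℂ G) (T : Finset G) :
    0 ≤ ∑ k ∈ T, ‖x.coeff k‖ ^ r :=
  Finset.sum_nonneg fun _ _ => Real.rpow_nonneg (norm_nonneg _) _

theorem nonneg (r : ℝ) (x : AddMonoidAlgebra ℂ G) : 0 ≤ Nn r x :=
  Real.rpow_nonneg (S_nonneg r x _) _

theorem rpow (r : ℝ) (x : AddMonoidAlgebra ℂ G) (hr : 1 ≤ r) :
    Nn r x ^ r = ∑ k ∈ x.coeff.support, ‖x.coeff k‖ ^ r := by
  unfold Nn
  rw [← Real.rpow_mul (S_nonneg r x _), one_div, inv_mul_cancel₀ (by linarith), Real.rpow_one]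

theorem zero (r : ℝ) (hr : 1 ≤ r) : Nn r (0 : AddMonoidAlgebra ℂ G) = 0 := by
  unfold Nn
  rw [AddMonoidAlgebra.coeff_zero, Finsupp.support_zero, Finset.sum_empty]
  exact Real.zero_rpow (by positivity)

theorem one (r : ℝ) (_hr : 1 ≤ r) : Nn r (1 : AddMonoidAlgebra ℂ G) = 1 := by
  unfold Nn
  rw [AddMonoidAlgebra.one_def, AddMonoidAlgebra.coeff_single,
    Finsupp.support_single_ne_zero _ one_ne_zero, Finset.sum_singleton, Finsupp.single_eq_same,
    norm_one, Real.one_rpow, Real.one_rpow]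

theorem add (r : ℝ) (x y : AddMonoidAlgebra ℂ G) (hr : 1 ≤ r) :
    Nn r (x + y) ≤ Nn r x + Nn r y := by
  classical
  set T := x.coeff.support ∪ y.coeff.support ∪ (x + y).coeff.support with hT
  have h1 : Nn r x = (∑ k ∈ T, ‖x.coeff k‖ ^ r) ^ (1 / r) := by
    unfold Nn; rw [sum_ext r hr x T (by intro k hk; simp only [hT, Finset.mem_union]; tauto)]
  have h2 : Nn r y = (∑ k ∈ T, ‖y.coeff k‖ ^ r) ^ (1 / r) := by
    unfold Nn; rw [sum_ext r hr y T (by intro k hk; simp only [hT, Finset.mem_union]; tauto)]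
  have h3 : Nn r (x + y) = (∑ k ∈ T, ‖(x + y).coeff k‖ ^ r) ^ (1 / r) := by
    unfold Nn; rw [sum_ext r hr (x + y) T (by intro k hk; simp only [hT, Finset.mem_union]; tauto)]
  rw [h1, h2, h3]
  refine le_trans (Real.rpow_le_rpow (S_nonneg r _ _) ?_ (by positivity))
    (Real.Lp_add_le_of_nonneg T hr (f := fun k => ‖x.coeff k‖) (g := fun k => ‖y.coeff k‖)
      (fun _ _ => norm_nonneg _) (fun _ _ => norm_nonneg _))
  apply Finset.sum_le_sum
  intro k _
  apply Real.rpow_le_rpow (norm_nonneg _) _ (by linarith)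
  rw [AddMonoidAlgebra.coeff_add, Finsupp.add_apply]
  exact norm_add_le _ _

theorem smul (r : ℝ) (c : ℂ) (x : AddMonoidAlgebra ℂ G) (hr : 1 ≤ r) :
    Nn r (c • x) = ‖c‖ * Nn r x := by
  unfold Nn
  rw [sum_ext r hr (c • x) x.coeff.support (by
    intro k hk
    rw [Finsupp.mem_support_iff] at hk ⊢
    intro h
    apply hk
    rw [AddMonoidAlgebra.coeff_smul, Finsupp.smul_apply, h, smul_zero])]
  have h1 : ∀ k ∈ x.coeff.support, ‖(c • x).coeff k‖ ^ r = ‖c‖ ^ r * ‖x.coeff k‖ ^ r := by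
    intro k _
    rw [AddMonoidAlgebra.coeff_smul, Finsupp.smul_apply, smul_eq_mul, norm_mul,
      Real.mul_rpow (norm_nonneg _) (norm_nonneg _)]
  rw [Finset.sum_congr rfl h1, ← Finset.mul_sum,
    Real.mul_rpow (Real.rpow_nonneg (norm_nonneg _) _) (S_nonneg r x _),
    ← Real.rpow_mul (norm_nonneg _), mul_one_div_cancel (by linarith), Real.rpow_one]

theorem neg (r : ℝ) (x : AddMonoidAlgebra ℂ G) : Nn r (-x) = Nn r x := by
  unfold Nn
  rw [AddMonoidAlgebra.coeff_neg, Finsupp.support_neg]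
  simp only [Finsupp.neg_apply, norm_neg]

theorem sub (r : ℝ) (x y : AddMonoidAlgebra ℂ G) (hr : 1 ≤ r) :
    Nn r (x - y) ≤ Nn r x + Nn r y := by
  rw [sub_eq_add_neg, ← neg r y]
  exact add r x (-y) hr

theorem sum (r : ℝ) {ι : Type} (s : Finset ι) (x : ι → AddMonoidAlgebra ℂ G) (hr : 1 ≤ r) :
    Nn r (∑ i ∈ s, x i) ≤ ∑ i ∈ s, Nn r (x i) := by
  classical
  induction s using Finset.induction_on with
  | empty => simp [zero r hr]
  | insert a s ha ih =>
    rw [Finset.sum_insert ha, Finset.sum_insert ha]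
    exact le_trans (add r _ _ hr) (by linarith)

theorem coeff_le (r : ℝ) (x : AddMonoidAlgebra ℂ G) (g : G) (hr : 1 ≤ r) :
    ‖x.coeff g‖ ≤ Nn r x := by
  by_cases hg : g ∈ x.coeff.support
  · have h1 : ‖x.coeff g‖ ^ r ≤ ∑ k ∈ x.coeff.support, ‖x.coeff k‖ ^ r :=
      Finset.single_le_sum (f := fun k => ‖x.coeff k‖ ^ r)
        (fun _ _ => Real.rpow_nonneg (norm_nonneg _) _) hg
    have h2 := Real.rpow_le_rpow (Real.rpow_nonneg (norm_nonneg _) _) h1
      (show (0 : ℝ) ≤ 1 / r by positivity)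
    rw [← Real.rpow_mul (norm_nonneg _), mul_one_div_cancel (by linarith), Real.rpow_one] at h2
    exact h2
  · rw [Finsupp.notMem_support_iff.mp hg, norm_zero]
    exact nonneg r x

theorem mono (r s : ℝ) (x : AddMonoidAlgebra ℂ G) (hr : 1 ≤ r) (hrs : r ≤ s) :
    Nn s x ≤ Nn r x := by
  have hs : 1 ≤ s := le_trans hr hrs
  set A := Nn r x with hA
  have hA0 : 0 ≤ A := nonneg r x
  have h1 : ∑ k ∈ x.coeff.support, ‖x.coeff k‖ ^ s ≤ A ^ s := by
    rcases eq_or_lt_of_le hA0 with h0 | h0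
    · have h2 : ∀ k ∈ x.coeff.support, ‖x.coeff k‖ ^ s = 0 := by
        intro k _
        have h3 := coeff_le r x k hr
        rw [← hA, ← h0] at h3
        have h4 : ‖x.coeff k‖ = 0 := le_antisymm h3 (norm_nonneg _)
        rw [h4, Real.zero_rpow (by linarith)]
      rw [Finset.sum_congr rfl h2, Finset.sum_const_zero]
      exact Real.rpow_nonneg hA0 _
    · have h2 : ∀ k ∈ x.coeff.support, ‖x.coeff k‖ ^ s ≤ A ^ (s - r) * ‖x.coeff k‖ ^ r := by
        intro k hk
        have hpos : 0 < ‖x.coeff k‖ := norm_pos_iff.mpr (Finsupp.mem_support_iff.mp hk)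
        have h3 : ‖x.coeff k‖ ^ s = ‖x.coeff k‖ ^ (s - r) * ‖x.coeff k‖ ^ r := by
          rw [← Real.rpow_add hpos]; congr 1; ring
        rw [h3]
        exact mul_le_mul_of_nonneg_right
          (Real.rpow_le_rpow hpos.le (coeff_le r x k hr) (by linarith))
          (Real.rpow_nonneg hpos.le _)
      refine le_trans (Finset.sum_le_sum h2) ?_
      rw [← Finset.mul_sum, ← rpow r x hr, ← hA, ← Real.rpow_add h0]
      apply le_of_eq; congr 1; ring
  have h2 := Real.rpow_le_rpow (S_nonneg s x _) h1 (show (0 : ℝ) ≤ 1 / s by positivity)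
  rw [← Real.rpow_mul hA0, mul_one_div_cancel (by linarith), Real.rpow_one] at h2
  exact h2

theorem single_mul (r : ℝ) (g : G) (x : AddMonoidAlgebra ℂ G) (_hr : 1 ≤ r) :
    Nn r (AddMonoidAlgebra.single g 1 * x) = Nn r x := by
  classical
  unfold Nn
  congr 1
  have hc : ∀ h, (AddMonoidAlgebra.single g 1 * x : AddMonoidAlgebra ℂ G).coeff h =
      x.coeff (-g + h) := by
    intro h
    rw [AddMonoidAlgebra.coeff_single_mul_apply, one_mul]
  symm
  apply Finset.sum_bij (fun k _ => g + k)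
  · intro k hk
    rw [Finsupp.mem_support_iff] at hk ⊢
    rw [hc, neg_add_cancel_left]; exact hk
  · intro a _ b _ hab
    exact add_left_cancel hab
  · intro k hk
    rw [Finsupp.mem_support_iff, hc] at hk
    exact ⟨-g + k, Finsupp.mem_support_iff.mpr hk, by rw [add_neg_cancel_left]⟩
  · intro k _
    rw [hc, neg_add_cancel_left]

theorem mul (r : ℝ) (x y : AddMonoidAlgebra ℂ G) (hr : 1 ≤ r) :
    Nn r (x * y) ≤ Nn 1 x * Nn r y := by
  have h1 : x = ∑ g ∈ x.coeff.support, x.coeff g • AddMonoidAlgebra.single g (1 : ℂ) := by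
    conv_lhs => rw [← AddMonoidAlgebra.sum_coeff_single x]
    rw [Finsupp.sum]
    apply Finset.sum_congr rfl
    intro g _
    rw [AddMonoidAlgebra.smul_single, smul_eq_mul, mul_one]
  have h2 : x * y = ∑ g ∈ x.coeff.support, x.coeff g • (AddMonoidAlgebra.single g (1 : ℂ) * y) := by
    conv_lhs => rw [h1]
    rw [Finset.sum_mul]
    apply Finset.sum_congr rfl
    intro g _
    rw [smul_mul_assoc]
  have h3 : Nn 1 x = ∑ g ∈ x.coeff.support, ‖x.coeff g‖ := by
    unfold Nn
    rw [div_one, Real.rpow_one]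
    simp only [Real.rpow_one]
  rw [h2, h3, Finset.sum_mul]
  refine le_trans (sum r _ _ hr) (le_of_eq ?_)
  apply Finset.sum_congr rfl
  intro g _
  rw [smul r _ _ hr, single_mul r g y hr]

theorem disj2 (r : ℝ) (x y : AddMonoidAlgebra ℂ G) (hr : 1 ≤ r)
    (h : Disjoint x.coeff.support y.coeff.support) :
    Nn r (x + y) ^ r = Nn r x ^ r + Nn r y ^ r := by
  classical
  rw [rpow r _ hr, rpow r _ hr, rpow r _ hr]
  rw [sum_ext r hr (x + y) (x.coeff.support ∪ y.coeff.support) (by
    rw [AddMonoidAlgebra.coeff_add]; exact Finsupp.support_add)]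
  rw [Finset.sum_union h]
  congr 1
  · apply Finset.sum_congr rfl
    intro k hk
    have : y.coeff k = 0 := Finsupp.notMem_support_iff.mp (Finset.disjoint_left.mp h hk)
    rw [AddMonoidAlgebra.coeff_add, Finsupp.add_apply, this, add_zero]
  · apply Finset.sum_congr rfl
    intro k hk
    have : x.coeff k = 0 := Finsupp.notMem_support_iff.mp (Finset.disjoint_right.mp h hk)
    rw [AddMonoidAlgebra.coeff_add, Finsupp.add_apply, this, zero_add]

theorem disj (r : ℝ) {ι : Type} (s : Finset ι)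
    (x : ι → AddMonoidAlgebra ℂ G) (hr : 1 ≤ r) (h : ∀ i ∈ s, ∀ j ∈ s, i ≠ j →
      Disjoint (x i).coeff.support (x j).coeff.support) :
    Nn r (∑ i ∈ s, x i) ^ r = ∑ i ∈ s, Nn r (x i) ^ r := by
  classical
  induction s using Finset.induction_on with
  | empty => simp [zero r hr, Real.zero_rpow (show r ≠ 0 by linarith)]
  | insert a s ha ih =>
    rw [Finset.sum_insert ha, Finset.sum_insert ha, disj2 r _ _ hr, ih]
    · intro i hi j hj hij
      exact h i (Finset.mem_insert_of_mem hi) j (Finset.mem_insert_of_mem hj) hij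
    · rw [Finset.disjoint_left]
      intro k hk hk2
      rw [Finsupp.mem_support_iff, AddMonoidAlgebra.coeff_sum, Finsupp.finset_sum_apply] at hk2
      apply hk2
      apply Finset.sum_eq_zero
      intro i hi
      exact Finsupp.notMem_support_iff.mp (Finset.disjoint_left.mp
        (h a (Finset.mem_insert_self _ _) i (Finset.mem_insert_of_mem hi)
          (fun e => ha (e ▸ hi))) hk)

end NRM81

theorem NRM_proved : S_NRM where
  nonneg := fun r x => NRM81.nonneg r x
  zero := fun r hr => NRM81.zero r hr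
  one := fun r hr => NRM81.one r hr
  add := fun r x y hr => NRM81.add r x y hr
  neg := fun r x => NRM81.neg r x
  sub := fun r x y hr => NRM81.sub r x y hr
  sum := fun r _ s x hr => NRM81.sum r s x hr
  smul := fun r c x hr => NRM81.smul r c x hr
  mono := fun r s x hr hrs => NRM81.mono r s x hr hrs
  mul := fun r x y hr => NRM81.mul r x y hr
  single_mul := fun r g x hr => NRM81.single_mul r g x hr
  coeff_le := fun r x g hr => NRM81.coeff_le r x g hr
  rpow := fun r x hr => NRM81.rpow r x hr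
  disj := fun r _ s x hr h => NRM81.disj r s x hr h

end HM
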